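import Pool.Agent.Helper92K9.WI.AsLaw
import Pool.Agent.Helper92K9.WI.Model

set_option autoImplicit false

/-!
# Wilson primes of arithmetic progressions with a random difference: the almost sure law
-/

namespace Pool.Agent.Results.MP_de5eaa_nt.AlmostSureLaw

open Finset Filter Topology MeasureTheory
open scoped Classical

/-- the product of those among the first `p` terms `b, b + a, …, b + (p-1)a` of the progression
that are not divisible by `p` -/
def unitProduct (b a : ℤ) (p : ℕ) : ℤ :=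
  ∏ k ∈ (range p).filter (fun k : ℕ => ¬ (p : ℤ) ∣ b + a * k), (b + a * k)

/-- `p` is a Wilson prime of the progression `b, b + a, b + 2a, …`: it does not divide `a`, and
Wilson's congruence for this progression holds modulo `p ^ 2` -/
def IsWilsonPrime (b a : ℤ) (p : ℕ) : Prop :=
  p.Prime ∧ ¬ (p : ℤ) ∣ a ∧ (p : ℤ) ^ 2 ∣ unitProduct b a p + 1

/-- the random integers `A p`, `p` prime, have residues modulo `p ^ 2` that are uniformly
distributed and pairwise independent (for example, `A p` is the residue modulo `p ^ 2` of a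
Haar-random profinite integer) -/
structure UniformResidues {Ω : Type} [MeasurableSpace Ω] (P : Measure Ω) (A : ℕ → Ω → ℕ) : Prop where
  meas : ∀ p : ℕ, p.Prime → Measurable (A p)
  unif : ∀ p : ℕ, p.Prime → ∀ r < p ^ 2, P.real {ω | A p ω % p ^ 2 = r} = 1 / (p : ℝ) ^ 2
  indep : ∀ p q : ℕ, p.Prime → q.Prime → p ≠ q → ∀ r < p ^ 2, ∀ s < q ^ 2,
    P.real {ω | A p ω % p ^ 2 = r ∧ A q ω % q ^ 2 = s} = 1 / ((p : ℝ) ^ 2 * (q : ℝ) ^ 2)

/-- the number of `p ≤ y` that are Wilson primes of the progression of difference `A p` -/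
noncomputable def count (b : ℤ) (A : ℕ → ℕ) (y : ℕ) : ℕ :=
  ((Icc 1 y).filter (fun p => IsWilsonPrime b (A p : ℤ) p)).card

theorem result :
    -- the model exists
    (∃ (Ω : Type) (_ : MeasurableSpace Ω) (P : Measure Ω) (A : ℕ → Ω → ℕ),
      IsProbabilityMeasure P ∧ UniformResidues P A) ∧
    -- the law
    (∀ (Ω : Type) [MeasurableSpace Ω] (P : Measure Ω) [IsProbabilityMeasure P] (A : ℕ → Ω → ℕ),
      UniformResidues P A → ∀ᵐ ω ∂P, ∀ b : ℤ,
        {p : ℕ | IsWilsonPrime b (A p ω : ℤ) p}.Infinite ∧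
        Tendsto (fun y : ℕ => (count b (fun p => A p ω) y : ℝ) / Real.log (Real.log y))
          atTop (𝓝 1)) := by
  refine ⟨⟨ℕ → ℕ, inferInstance, Helper92K9.WI.PM, fun p ω => ω p, inferInstance, ?_⟩, ?_⟩
  · exact ⟨fun p _ => measurable_pi_apply p, fun p hp r hr => Helper92K9.WI.PM_one hp hr,
      fun p q hp hq hpq r hr s hs => Helper92K9.WI.PM_two hp hq hpq hr hs⟩
  · intro Ω _ P _ A hA
    have h : Helper92K9.WI.Uni P A := ⟨hA.meas, hA.unif, hA.indep⟩
    exact Helper92K9.WI.as_law h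

end Pool.Agent.Results.MP_de5eaa_nt.AlmostSureLaw
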