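import Pool.Agent.Helper92K9.WI.Ord

set_option autoImplicit false

/-!
# Wilson primes of arithmetic progressions: the normal order is `log log`
-/

namespace Pool.Agent.Results.MP_de5eaa_nt.NormalOrder

open Finset
open scoped Classical Nat

/-- the product of those among the first `p` terms `b, b + a, …, b + (p-1)a` of the progression
that are not divisible by `p` -/
def unitProduct (b a : ℤ) (p : ℕ) : ℤ :=
  ∏ k ∈ (range p).filter (fun k : ℕ => ¬ (p : ℤ) ∣ b + a * k), (b + a * k)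

/-- `p` is a Wilson prime of the progression `b, b + a, b + 2a, …`: it does not divide `a`, and
Wilson's congruence for this progression holds modulo `p ^ 2` -/
def IsWilsonPrime (b a : ℤ) (p : ℕ) : Prop :=
  p.Prime ∧ ¬ (p : ℤ) ∣ a ∧ (p : ℤ) ^ 2 ∣ unitProduct b a p + 1

/-- the number of Wilson primes `p ≤ y` of the progression -/
noncomputable def count (b a : ℤ) (y : ℕ) : ℕ := ((Icc 1 y).filter (fun p => IsWilsonPrime b a p)).card

lemma iff_IsWilson (b a : ℤ) (p : ℕ) : IsWilsonPrime b a p ↔ Helper92K9.WI.IsWilson b a p := Iff.rfl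

theorem result :
    -- Wilson's theorem for a progression
    (∀ (b a : ℤ) (p : ℕ), p.Prime → ¬ (p : ℤ) ∣ a → (p : ℤ) ∣ unitProduct b a p + 1) ∧
    -- the progressions of difference 1: Wilson primes of order `n`
    (∀ n p : ℕ, 1 ≤ n → n ≤ p → (IsWilsonPrime (1 - n) 1 p ↔
      p.Prime ∧ (p : ℤ) ^ 2 ∣ ((n - 1) ! : ℕ) * ((p - n) ! : ℕ) - (-1) ^ n)) ∧
    -- the second moment
    (∃ C : ℝ, 0 < C ∧ ∀ (b : ℤ) (X y : ℕ), 3 ≤ y → y ^ 4 ≤ X →
      ∑ a ∈ Icc 1 X, ((count b a y : ℝ) - Real.log (Real.log y)) ^ 2 ≤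
        C * (Real.log (Real.log y) + 1) * X) ∧
    -- density one
    (∀ (K : ℕ) (ε : ℝ), 0 < ε → ∃ X0 : ℕ, ∀ X : ℕ, X0 ≤ X → ∀ b : ℤ,
      (((Icc 1 X).filter (fun a : ℕ => count b a X < K)).card : ℝ) ≤ ε * X) := by
  refine ⟨?_, Helper92K9.WI.order_n, Helper92K9.WI.main, ?_⟩
  · intro b a p hp ha
    have : Fact p.Prime := ⟨hp⟩
    have ha' : (a : ZMod p) ≠ 0 := fun h => ha ((ZMod.intCast_zmod_eq_zero_iff_dvd a p).1 h)
    rw [← ZMod.intCast_zmod_eq_zero_iff_dvd]
    have h := Helper92K9.WI.prod_eq_neg_one (b := b) ha'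
    unfold unitProduct
    push_cast
    have h2 : ∏ k ∈ (range p).filter (fun k : ℕ => ¬ (p : ℤ) ∣ b + a * k),
        ((b : ZMod p) + a * k) = -1 := h
    rw [h2]
    ring
  · intro K ε hε
    exact Helper92K9.WI.density K hε

end Pool.Agent.Results.MP_de5eaa_nt.NormalOrder
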