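import Pool.Agent.Helper92K9.WI.Avg

set_option autoImplicit false

/-!
# Wilson primes of order `n`: upper bounds on average over the order
-/

namespace Pool.Agent.Results.MP_de5eaa_nt.OrdersOnAverage

open Finset
open scoped Classical Nat

/-- `p` is a Wilson prime of order `n` (for `n = 1`: a Wilson prime) -/
def IsWilsonOfOrder (n p : ℕ) : Prop :=
  p.Prime ∧ 1 ≤ n ∧ n ≤ p ∧ (p : ℤ) ^ 2 ∣ ((n - 1) ! : ℕ) * ((p - n) ! : ℕ) - (-1) ^ n

/-- the number of Wilson primes of order `n` up to `x` -/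
noncomputable def piOrder (n x : ℕ) : ℕ := ((Icc 1 x).filter (fun p => IsWilsonOfOrder n p)).card

theorem result :
    -- the sum over the orders
    (∀ N x : ℕ, ((∑ n ∈ Icc 1 N, piOrder n x : ℕ) : ℝ) ≤
      Nat.primeCounting x + 3 / 2 * N * (Nat.primeCounting x : ℝ) ^ ((2 : ℝ) / 3)) ∧
    -- almost all orders
    (∀ (N x : ℕ) (K : ℝ), 0 < K → (Nat.primeCounting x : ℝ) ≤ (N : ℝ) ^ 3 →
      (((Icc 1 N).filter (fun n => K * (Nat.primeCounting x : ℝ) ^ ((2 : ℝ) / 3) <
        piOrder n x)).card : ℝ) ≤ 5 / (2 * K) * N) ∧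
    -- one prime, many orders
    (∀ p : ℕ, p.Prime → ∀ N : ℕ, (((Icc 1 N).filter (fun n => IsWilsonOfOrder n p)).card : ℝ) ≤
      3 / 2 * (N : ℝ) ^ ((2 : ℝ) / 3) + 1) ∧
    -- two orders
    (∀ m n : ℕ, m < n → ∀ T : Finset ℕ, (∀ p ∈ T, IsWilsonOfOrder m p ∧ IsWilsonOfOrder n p) →
      T.card ≤ n - m - 1 ∧ ∀ p ∈ T, p < n ^ (n - m)) ∧
    -- at most one order has almost all primes
    (∀ m n : ℕ, m ≠ n → {p : ℕ | p.Prime ∧ ¬ IsWilsonOfOrder m p}.Finite →
      {p : ℕ | IsWilsonOfOrder n p}.Finite) := by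
  refine ⟨Helper92K9.WI.average', ?_, fun p hp N => Helper92K9.WI.orders hp N, ?_, ?_⟩
  · intro N x K hK hN
    have h1 : ((∑ n ∈ Icc 1 N, piOrder n x : ℕ) : ℝ) ≤
        Nat.primeCounting x + 3 / 2 * N * (Nat.primeCounting x : ℝ) ^ ((2 : ℝ) / 3) :=
      Helper92K9.WI.average' N x
    set P : ℝ := (Nat.primeCounting x : ℝ) with hP
    have hP0 : 0 ≤ P := Nat.cast_nonneg _
    have hN0 : (0 : ℝ) ≤ N := Nat.cast_nonneg N
    set s : ℝ := P ^ ((2 : ℝ) / 3) with hs
    have hs0 : 0 ≤ s := Real.rpow_nonneg hP0 _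
    set B := (Icc 1 N).filter (fun n => K * s < piOrder n x) with hB
    -- `π(x) ≤ N π(x)^(2/3)`
    have h2 : P ≤ N * s := by
      have e1 : P = P ^ ((1 : ℝ) / 3) * s := by
        rw [hs, ← Real.rpow_add_of_nonneg hP0 (by norm_num) (by norm_num)]
        norm_num
      have e2 : P ^ ((1 : ℝ) / 3) ≤ N := by
        have h3 : P ^ ((1 : ℝ) / 3) ≤ ((N : ℝ) ^ 3) ^ ((1 : ℝ) / 3) :=
          Real.rpow_le_rpow hP0 hN (by norm_num)
        rwa [← Real.rpow_natCast, ← Real.rpow_mul hN0, show ((3 : ℕ) : ℝ) * (1 / 3) = 1 by norm_num,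
          Real.rpow_one] at h3
      calc P = P ^ ((1 : ℝ) / 3) * s := e1
        _ ≤ N * s := mul_le_mul_of_nonneg_right e2 hs0
    by_cases hs1 : s = 0
    · -- no primes at all
      have hP1 : P = 0 := by
        have : P ≤ 0 := by rw [hs1, mul_zero] at h2; exact h2
        linarith
      have h3 : ((∑ n ∈ Icc 1 N, piOrder n x : ℕ) : ℝ) ≤ 0 := by
        rw [hs1, hP1] at h1
        simpa using h1
      have h4 : ∑ n ∈ Icc 1 N, piOrder n x = 0 := by
        have : ∑ n ∈ Icc 1 N, piOrder n x ≤ 0 := by exact_mod_cast h3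
        omega
      have h5 : B = ∅ := by
        apply eq_empty_of_forall_notMem
        intro n hn
        rw [hB, mem_filter] at hn
        have h6 := (sum_eq_zero_iff.1 h4) n hn.1
        rw [h6, hs1] at hn
        simp at hn
      rw [h5]
      simp only [card_empty, Nat.cast_zero]
      positivity
    · have hs2 : 0 < s := lt_of_le_of_ne hs0 (Ne.symm hs1)
      have h3 : (B.card : ℝ) * (K * s) ≤ ((∑ n ∈ Icc 1 N, piOrder n x : ℕ) : ℝ) := by
        have h4 : ∑ _n ∈ B, (K * s) ≤ ∑ n ∈ B, (piOrder n x : ℝ) :=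
          sum_le_sum fun n hn => (mem_filter.1 hn).2.le
        rw [sum_const, nsmul_eq_mul] at h4
        refine h4.trans ?_
        push_cast
        exact sum_le_sum_of_subset_of_nonneg (filter_subset _ _) fun _ _ _ => Nat.cast_nonneg _
      have h5 : (B.card : ℝ) * (K * s) ≤ 5 / 2 * N * s := by linarith
      have h6 : (B.card : ℝ) * K ≤ 5 / 2 * N := by
        have h7 : ((B.card : ℝ) * K) * s ≤ (5 / 2 * N) * s := by linarith
        exact le_of_mul_le_mul_right h7 hs2
      have e : 5 / (2 * K) * (N : ℝ) = (5 / 2 * N) / K := by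
        field_simp
      rw [e, le_div_iff₀ hK]
      exact h6
  · intro m n hmn T hT
    have e : n = m + (n - m) := by omega
    rw [e] at hT
    have h := Helper92K9.WI.common_card (d := n - m) (m := m) (by omega) T hT
    refine ⟨by omega, fun p hp => ?_⟩
    obtain ⟨g1, g2⟩ := hT p hp
    have hm : 1 ≤ m := g1.2.1
    have h3 := Helper92K9.WI.two_orders g1 g2
    have h4 := Int.le_of_dvd (Helper92K9.WI.QQ_pos (d := n - m) (m := m) (by omega) hm) h3
    have h5 := Helper92K9.WI.QQ_lt (d := n - m) (m := m) (by omega) hm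
    have h6 := h4.trans_lt h5
    rw [← e] at h6
    exact_mod_cast h6
  · intro m n hmn hm
    have hc : {p : ℕ | IsWilsonOfOrder m p ∧ IsWilsonOfOrder n p}.Finite := by
      rcases Nat.lt_or_gt_of_ne hmn with h | h
      · exact Helper92K9.WI.finite_common h
      · exact (Helper92K9.WI.finite_common h).subset fun p hp => ⟨hp.2, hp.1⟩
    apply (hm.union hc).subset
    intro p hp
    by_cases h : IsWilsonOfOrder m p
    · exact Or.inr ⟨h, hp⟩
    · exact Or.inl ⟨hp.1, h⟩

end Pool.Agent.Results.MP_de5eaa_nt.OrdersOnAverage
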