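import Pool.Agent.Helper92K9.WI.Win

set_option autoImplicit false

/-!
# Wilson primes of arithmetic progressions: the Poisson law
-/

namespace Pool.Agent.Results.MP_de5eaa_nt.PoissonLaw

open Finset
open scoped Classical

/-- the product of those among the first `p` terms `b, b + a, …, b + (p-1)a` of the progression
that are not divisible by `p` -/
def unitProduct (b a : ℤ) (p : ℕ) : ℤ :=
  ∏ k ∈ (range p).filter (fun k : ℕ => ¬ (p : ℤ) ∣ b + a * k), (b + a * k)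

/-- `p` is a Wilson prime of the progression `b, b + a, b + 2a, …`: it does not divide `a`, and
Wilson's congruence for this progression holds modulo `p ^ 2` -/
def IsWilsonPrime (b a : ℤ) (p : ℕ) : Prop :=
  p.Prime ∧ ¬ (p : ℤ) ∣ a ∧ (p : ℤ) ^ 2 ∣ unitProduct b a p + 1

/-- the proportion of the `a ≤ X` for which the progression `b + a k` has exactly `j` Wilson primes
in the set `S` -/
noncomputable def proportion (b : ℤ) (S : Finset ℕ) (j X : ℕ) : ℝ :=
  (((Icc 1 X).filter (fun a : ℕ => (S.filter (fun p => IsWilsonPrime b (a : ℤ) p)).card = j)).card : ℝ) / X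

theorem result :
    -- every set of primes
    (∀ (j : ℕ) (l ε : ℝ), 0 < ε → ∃ u D : ℕ, ∀ (b : ℤ) (S : Finset ℕ) (v X : ℕ),
      u ≤ v → (∀ p ∈ S, p.Prime ∧ u ≤ p ∧ p ≤ v) → ∑ p ∈ S, (1 : ℝ) / p ≤ l → v ^ D ≤ X →
      |proportion b S j X -
        Real.exp (-∑ p ∈ S, (1 : ℝ) / p) * (∑ p ∈ S, (1 : ℝ) / p) ^ j / (j.factorial : ℝ)| ≤ ε) ∧
    -- the windows `(u, u ^ κ]`
    (∀ (j : ℕ) (κ ε : ℝ), 1 < κ → 0 < ε → ∃ u₀ D : ℕ, ∀ (b : ℤ) (u X : ℕ), u₀ ≤ u → u ^ D ≤ X →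
      |proportion b (Ioc u ⌊(u : ℝ) ^ κ⌋₊) j X - (Real.log κ) ^ j / (κ * (j.factorial : ℝ))| ≤ ε) :=
  ⟨fun j l _ hε => Helper92K9.WI.poisson j l hε, fun j _ _ hκ hε => Helper92K9.WI.window j hκ hε⟩

end Pool.Agent.Results.MP_de5eaa_nt.PoissonLaw
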